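import Mathlib

set_option autoImplicit false

/-! Project YP, part of (G): the determinant of the chart. -/

namespace Pool.Agent.J4H94.YP

open MvPowerSeries

theorem det_scalar {n R : Type} [CommRing R] (i1 : DecidableEq n) (i2 : Fintype n) (M : Matrix n n R) (x : R)
    (h1 : ∀ a, M a a = x) (h2 : ∀ a b, a ≠ b → M a b = 0) : M.det = x ^ Fintype.card n := by
  have : M = x • (1 : Matrix n n R) := by
    ext a b
    by_cases h : a = b
    · subst h; simp [h1]
    · rw [h2 a b h]; simp [h]
  rw [this, Matrix.det_smul, Matrix.det_one, mul_one]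

/-- **The determinant of the chart** `x = z v (c + (0, y))`. -/
theorem det_chart {τ : Type} [Fintype τ] [DecidableEq τ] (v : MvPowerSeries (Option τ) ℂ)
    (hv : constantCoeff v ≠ 0) (c : Option τ → ℂ) (hc : c none ≠ 0) (Ψ : Option τ → MvPowerSeries (Option τ) ℂ)
    (h0 : Ψ none = X none * v * C (c none))
    (h1 : ∀ j, Ψ (some j) = X none * v * (C (c (some j)) + X (some j))) :
    ∃ J, IsUnit J ∧ (Matrix.of fun l m => pderiv ℂ m (Ψ l)).det = X none ^ Fintype.card τ * J := by
  obtain ⟨Z, hZ⟩ : ∃ Z : MvPowerSeries (Option τ) ℂ, Z = X none * v := ⟨_, rfl⟩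
  rw [← hZ] at h0
  have h1' : ∀ j, Ψ (some j) = Z * (C (c (some j)) + X (some j)) := by
    intro j; rw [hZ]; exact h1 j
  obtain ⟨N, hN⟩ : ∃ N : Matrix (Option τ) (Option τ) (MvPowerSeries (Option τ) ℂ),
    N = Matrix.of fun l m => Option.elim l (pderiv ℂ m Z * C (c none)) (fun j => if m = some j then Z else 0) := ⟨_, rfl⟩
  have hcc : (C (c none) : MvPowerSeries (Option τ) ℂ) * C (c none)⁻¹ = 1 := by
    rw [← map_mul, mul_inv_cancel₀ hc, map_one]
  have hpC : ∀ (m : Option τ) (a : ℂ), pderiv ℂ m (C a : MvPowerSeries (Option τ) ℂ) = 0 := by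
    intro m a
    exact pderivFun_C a
  have e1 : (Matrix.of fun l m => pderiv ℂ m (Ψ l)).det = N.det := by
    apply Matrix.det_eq_of_forall_row_eq_smul_add_const
      (fun l => Option.elim l 0 (fun j => (C (c (some j)) + X (some j)) * C (c none)⁻¹)) none rfl
    intro l m
    rw [hN]
    cases l with
    | none =>
      simp only [Matrix.of_apply, Option.elim_none, zero_mul, add_zero, h0]
      rw [Derivation.leibniz, hpC, smul_zero, zero_add, smul_eq_mul, mul_comm]
    | some j =>
      simp only [Matrix.of_apply, Option.elim_none, Option.elim_some, h1' j]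
      rw [Derivation.leibniz, map_add, hpC, zero_add, smul_eq_mul, smul_eq_mul]
      have e2 : pderiv ℂ m (X (some j) : MvPowerSeries (Option τ) ℂ) = if m = some j then 1 else 0 := by
        by_cases h : m = some j
        · rw [if_pos h, h]; exact pderiv_X_self
        · rw [if_neg h]; exact pderiv_X_of_ne (Ne.symm h)
      rw [e2]
      have e3 : (C (c (some j)) + X (some j)) * C (c none)⁻¹ * (pderiv ℂ m Z * C (c none)) =
          (C (c (some j)) + X (some j)) * pderiv ℂ m Z * (C (c none) * C (c none)⁻¹) := by ring
      rw [e3, hcc, mul_one]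
      split_ifs <;> ring
  have e2 : N.det = pderiv ℂ none Z * C (c none) * Z ^ Fintype.card τ := by
    rw [Matrix.twoBlockTriangular_det N (fun i => i = none) (by
      intro i hi j hj
      rw [hN]
      cases i with
      | none => exact absurd rfl hi
      | some i =>
        rw [hj]
        simp)]
    congr 1
    · refine (det_scalar _ _ _ (pderiv ℂ none Z * C (c none)) ?_ ?_).trans ?_
      · intro a
        rw [hN]
        obtain ⟨a, ha⟩ := a
        subst ha
        simp [Matrix.toSquareBlockProp]
      · intro a b hab
        exact absurd (Subtype.ext (a.2.trans b.2.symm)) hab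
      · have hcard : ∀ i2 : Fintype {i : Option τ // i = none}, @Fintype.card {i : Option τ // i = none} i2 = 1 :=
          fun i2 => Fintype.card_eq_one_iff.2 ⟨⟨none, rfl⟩, fun a => Subtype.ext a.2⟩
        rw [hcard, pow_one]
    · refine (det_scalar _ _ _ Z ?_ ?_).trans ?_
      · intro a
        rw [hN]
        obtain ⟨a, ha⟩ := a
        cases a with
        | none => exact absurd rfl ha
        | some i => simp [Matrix.toSquareBlockProp]
      · intro a b hab
        rw [hN]
        obtain ⟨a, ha⟩ := a
        obtain ⟨b, hb⟩ := b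
        cases a with
        | none => exact absurd rfl ha
        | some i =>
          cases b with
          | none => exact absurd rfl hb
          | some j =>
            have hij : ¬ j = i := fun h => hab (by subst h; rfl)
            simp [Matrix.toSquareBlockProp, hij]
      · congr 1
        have e5 : {i : Option τ // ¬ i = none} ≃ τ :=
          ⟨fun a => a.1.get (Option.isSome_iff_ne_none.2 a.2), fun j => ⟨some j, by simp⟩, fun a => by simp, fun j => by simp⟩
        exact Fintype.card_congr e5
  have e3 : pderiv ℂ none Z = v + X none * pderiv ℂ none v := by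
    rw [hZ, Derivation.leibniz, pderiv_X_self, smul_eq_mul, smul_eq_mul, mul_one, add_comm]
  refine ⟨(v + X none * pderiv ℂ none v) * C (c none) * v ^ Fintype.card τ, ?_, ?_⟩
  · rw [MvPowerSeries.isUnit_iff_constantCoeff]
    simp only [map_mul, map_add, map_pow, constantCoeff_X, zero_mul, add_zero, constantCoeff_C]
    exact (isUnit_iff_ne_zero.2 (mul_ne_zero (mul_ne_zero hv hc) (pow_ne_zero _ hv)))
  · rw [e1, e2, e3, hZ, mul_pow]
    ring

end Pool.Agent.J4H94.YP
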