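import Mathlib

set_option autoImplicit false

/-! Project YP, part of (G): the formal solution of `x u(x, y) = z`. -/

namespace Pool.Agent.J4H94.YP

open MvPowerSeries

variable {τ : Type}

/-- the substitution `z ↦ z w`, `y ↦ y` -/
noncomputable def AA (w : MvPowerSeries (Option τ) ℂ) (o : Option τ) : MvPowerSeries (Option τ) ℂ :=
  Option.elim o (X none * w) (fun j => X (some j))

theorem AA_const (w : MvPowerSeries (Option τ) ℂ) (o : Option τ) : constantCoeff (AA w o) = 0 := by
  cases o <;> simp [AA]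

theorem AA_has [Finite τ] (w : MvPowerSeries (Option τ) ℂ) : HasSubst (AA w) :=
  hasSubst_of_constantCoeff_zero (AA_const w)

theorem prod_dvd {w w' : MvPowerSeries (Option τ) ℂ} {n : ℕ} (h : X none ^ n ∣ w - w') (d : Option τ →₀ ℕ) :
    X none ^ (n + 1) ∣ d.prod (fun s e => AA w s ^ e) - d.prod (fun s e => AA w' s ^ e) := by
  classical
  have h1 : X none ^ (n + 1) ∣ AA w none - AA w' none := by
    have : AA w none - AA w' none = X none * (w - w') := by simp [AA, mul_sub]
    rw [this, pow_succ, mul_comm]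
    exact mul_dvd_mul_left _ h
  have key : ∀ S : Finset (Option τ), X none ^ (n + 1) ∣ ∏ s ∈ S, AA w s ^ d s - ∏ s ∈ S, AA w' s ^ d s := by
    intro S
    induction S using Finset.induction_on with
    | empty => simp
    | insert a S ha ih =>
      rw [Finset.prod_insert ha, Finset.prod_insert ha]
      have e : AA w a ^ d a * ∏ s ∈ S, AA w s ^ d s - AA w' a ^ d a * ∏ s ∈ S, AA w' s ^ d s =
          (AA w a ^ d a - AA w' a ^ d a) * ∏ s ∈ S, AA w s ^ d s +
          AA w' a ^ d a * (∏ s ∈ S, AA w s ^ d s - ∏ s ∈ S, AA w' s ^ d s) := by ring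
      rw [e]
      apply dvd_add
      · apply Dvd.dvd.mul_right
        cases a with
        | none => exact h1.trans (sub_dvd_pow_sub_pow _ _ _)
        | some j =>
          have : AA w (some j) = AA w' (some j) := rfl
          rw [this, sub_self]
          exact dvd_zero _
      · exact Dvd.dvd.mul_left ih _
  unfold Finsupp.prod
  exact key _

theorem subst_dvd [Finite τ] {w w' : MvPowerSeries (Option τ) ℂ} {n : ℕ} (h : X none ^ n ∣ w - w')
    (u : MvPowerSeries (Option τ) ℂ) : X none ^ (n + 1) ∣ subst (AA w) u - subst (AA w') u := by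
  rw [X_pow_dvd_iff]
  intro m hm
  rw [map_sub, coeff_subst (AA_has w), coeff_subst (AA_has w'), sub_eq_zero]
  apply finsum_congr
  intro d
  congr 1
  have := (X_pow_dvd_iff.1 (prod_dvd h d)) m hm
  rw [map_sub, sub_eq_zero] at this
  exact this

theorem const_subst [Finite τ] (w u : MvPowerSeries (Option τ) ℂ) :
    constantCoeff (subst (AA w) u) = constantCoeff u := by
  rw [constantCoeff_subst (AA_has w), finsum_eq_single _ 0]
  · simp
  · intro d hd
    rw [map_finsuppProd]
    have : ∃ o, d o ≠ 0 := by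
      by_contra hcon
      push Not at hcon
      exact hd (Finsupp.ext hcon)
    obtain ⟨o, ho⟩ := this
    have h0 : constantCoeff (AA w o ^ d o) = 0 := by rw [map_pow, AA_const, zero_pow ho]
    unfold Finsupp.prod
    rw [Finset.prod_eq_zero (i := o) (by simpa using ho) h0, smul_zero]

/-- the next approximation -/
noncomputable def nx (u w : MvPowerSeries (Option τ) ℂ) : MvPowerSeries (Option τ) ℂ := (subst (AA w) u)⁻¹

theorem nx_mul [Finite τ] {u : MvPowerSeries (Option τ) ℂ} (hu : constantCoeff u ≠ 0) (w : MvPowerSeries (Option τ) ℂ) :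
    nx u w * subst (AA w) u = 1 := by
  unfold nx
  rw [mul_comm]
  exact MvPowerSeries.mul_inv_cancel _ (by rw [const_subst]; exact hu)

theorem nx_dvd [Finite τ] {u : MvPowerSeries (Option τ) ℂ} (hu : constantCoeff u ≠ 0) {w w' : MvPowerSeries (Option τ) ℂ}
    {n : ℕ} (h : X none ^ n ∣ w - w') : X none ^ (n + 1) ∣ nx u w - nx u w' := by
  have h1 := nx_mul hu w
  have h2 := nx_mul hu w'
  have e : nx u w - nx u w' = -(nx u w * nx u w') * (subst (AA w) u - subst (AA w') u) := by
    linear_combination nx u w' * h1 - nx u w * h2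
  rw [e]
  exact Dvd.dvd.mul_left (subst_dvd h u) _

/-- the approximations -/
noncomputable def vs (u : MvPowerSeries (Option τ) ℂ) : ℕ → MvPowerSeries (Option τ) ℂ
  | 0 => 0
  | n + 1 => nx u (vs u n)

theorem vs_dvd [Finite τ] {u : MvPowerSeries (Option τ) ℂ} (hu : constantCoeff u ≠ 0) (n : ℕ) :
    X none ^ n ∣ vs u (n + 1) - vs u n := by
  induction n with
  | zero => simp
  | succ n ih => exact nx_dvd hu ih

theorem vs_dvd' [Finite τ] {u : MvPowerSeries (Option τ) ℂ} (hu : constantCoeff u ≠ 0) (n k : ℕ) :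
    X none ^ n ∣ vs u (n + k) - vs u n := by
  induction k with
  | zero => simp
  | succ k ih =>
    have h1 := vs_dvd hu (n + k)
    have h2 : X none ^ n ∣ vs u (n + k + 1) - vs u (n + k) := (pow_dvd_pow _ (by omega)).trans h1
    have e : vs u (n + (k + 1)) - vs u n = (vs u (n + k + 1) - vs u (n + k)) + (vs u (n + k) - vs u n) := by
      rw [← add_assoc]; ring
    rw [e]
    exact dvd_add h2 ih

theorem eq_of_dvd {a b : MvPowerSeries (Option τ) ℂ} (h : ∀ n : ℕ, X none ^ n ∣ a - b) : a = b := by
  ext m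
  have := (X_pow_dvd_iff.1 (h (m none + 1))) m (by omega)
  rw [map_sub, sub_eq_zero] at this
  exact this

theorem exists_coeff (g : (Option τ →₀ ℕ) → ℂ) : ∃ f : MvPowerSeries (Option τ) ℂ, ∀ m, coeff m f = g m :=
  ⟨g, fun _ => rfl⟩

/-- the solution -/
noncomputable def sol (u : MvPowerSeries (Option τ) ℂ) : MvPowerSeries (Option τ) ℂ :=
  (exists_coeff (fun m => coeff m (vs u (m none + 1)))).choose

theorem coeff_sol (u : MvPowerSeries (Option τ) ℂ) (m : Option τ →₀ ℕ) :
    coeff m (sol u) = coeff m (vs u (m none + 1)) :=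
  (exists_coeff (fun m => coeff m (vs u (m none + 1)))).choose_spec m

theorem sol_dvd [Finite τ] {u : MvPowerSeries (Option τ) ℂ} (hu : constantCoeff u ≠ 0) (n : ℕ) :
    X none ^ n ∣ sol u - vs u n := by
  rw [X_pow_dvd_iff]
  intro m hm
  have e1 := coeff_sol u m
  obtain ⟨k, hk⟩ := Nat.exists_eq_add_of_le (show m none + 1 ≤ n by omega)
  have h2 := (X_pow_dvd_iff.1 (vs_dvd' hu (m none + 1) k)) m (by omega)
  rw [map_sub, sub_eq_zero] at h2
  rw [map_sub, e1, sub_eq_zero, hk, h2]

theorem sol_eq [Finite τ] {u : MvPowerSeries (Option τ) ℂ} (hu : constantCoeff u ≠ 0) : sol u = nx u (sol u) := by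
  apply eq_of_dvd
  intro n
  have h1 := nx_dvd hu (sol_dvd hu n)
  have h2 := sol_dvd hu (n + 1)
  have e : sol u - nx u (sol u) = (sol u - vs u (n + 1)) - (nx u (sol u) - nx u (vs u n)) := by
    have : vs u (n + 1) = nx u (vs u n) := rfl
    rw [this]; ring
  rw [e]
  exact (pow_dvd_pow _ (by omega)).trans (dvd_sub h2 h1)

/-- **The formal solution of `v u(z v, y) = 1`.** -/
theorem inv_unit [Finite τ] (u : MvPowerSeries (Option τ) ℂ) (hu : MvPowerSeries.constantCoeff u ≠ 0) :
    ∃ v : MvPowerSeries (Option τ) ℂ, MvPowerSeries.constantCoeff v ≠ 0 ∧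
      v * MvPowerSeries.subst (fun o : Option τ => Option.elim o (MvPowerSeries.X none * v)
        (fun j => MvPowerSeries.X (some j))) u = 1 := by
  have h := nx_mul hu (sol u)
  rw [← sol_eq hu] at h
  refine ⟨sol u, ?_, h⟩
  intro h0
  have := congrArg MvPowerSeries.constantCoeff h
  rw [map_mul, h0, zero_mul, map_one] at this
  exact zero_ne_one this

end Pool.Agent.J4H94.YP
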