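import Mathlib
import Pool.Agent.J4H94.YP.Inv
import Pool.Agent.J4H94.YP.Det

set_option autoImplicit false

/-! Project YP, part of (G): the chart of the blowing up at a superisolated point of the cone. -/

namespace Pool.Agent.J4H94.YP

open MvPowerSeries

/-- homogeneous polynomials at multiples -/
theorem aeval_hom {σ A : Type} [CommRing A] [Algebra ℂ A] (F : MvPolynomial σ ℂ) {n : ℕ} (hF : F.IsHomogeneous n)
    (Z : A) (ξ : σ → A) : MvPolynomial.aeval (fun l => Z * ξ l) F = Z ^ n * MvPolynomial.aeval ξ F := by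
  classical
  rw [MvPolynomial.aeval_def, MvPolynomial.aeval_def, MvPolynomial.eval₂_eq, MvPolynomial.eval₂_eq, Finset.mul_sum]
  apply Finset.sum_congr rfl
  intro m hm
  have hd : ∑ l ∈ m.support, m l = n := by
    have h := hF (MvPolynomial.mem_support_iff.1 hm)
    have h' : m.degree = n := by rw [Finsupp.degree_eq_weight_one]; exact h
    exact h'
  have h2 : ∏ l ∈ m.support, (Z * ξ l) ^ m l = Z ^ n * ∏ l ∈ m.support, ξ l ^ m l := by
    rw [← hd, ← Finset.prod_pow_eq_pow_sum, ← Finset.prod_mul_distrib]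
    exact Finset.prod_congr rfl fun l _ => mul_pow _ _ _
  rw [h2]
  ring

/-- the components of degree greater than `d` -/
theorem expand {σ A : Type} [CommRing A] [Algebra ℂ A] (G : MvPolynomial σ ℂ) (d : ℕ)
    (hG : ∀ j < d, MvPolynomial.homogeneousComponent j G = 0) (Z : A) (ξ : σ → A) :
    MvPolynomial.aeval (fun l => Z * ξ l) G = Z ^ d * (MvPolynomial.aeval ξ (MvPolynomial.homogeneousComponent d G) +
      Z * ∑ k ∈ Finset.range (G.totalDegree + 1), Z ^ k *
        MvPolynomial.aeval ξ (MvPolynomial.homogeneousComponent (d + 1 + k) G)) := by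
  obtain ⟨M, hM⟩ : ∃ M, M = G.totalDegree + 1 := ⟨_, rfl⟩
  have h1 : ∑ j ∈ Finset.range (d + 1 + M), MvPolynomial.homogeneousComponent j G = G := by
    conv_rhs => rw [← MvPolynomial.sum_homogeneousComponent G]
    symm
    apply Finset.sum_subset
    · intro j hj
      rw [Finset.mem_range] at hj ⊢
      omega
    · intro j _ hj
      rw [Finset.mem_range] at hj
      exact MvPolynomial.homogeneousComponent_eq_zero _ _ (by omega)
  have h2 : MvPolynomial.aeval (fun l => Z * ξ l) G = ∑ j ∈ Finset.range (d + 1 + M),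
      Z ^ j * MvPolynomial.aeval ξ (MvPolynomial.homogeneousComponent j G) := by
    conv_lhs => rw [← h1]
    rw [map_sum]
    apply Finset.sum_congr rfl
    intro j _
    exact aeval_hom _ (MvPolynomial.homogeneousComponent_isHomogeneous j G) Z ξ
  have h3 : ∑ j ∈ Finset.range d, Z ^ j * MvPolynomial.aeval ξ (MvPolynomial.homogeneousComponent j G) = 0 := by
    apply Finset.sum_eq_zero
    intro j hj
    rw [hG j (Finset.mem_range.1 hj), map_zero, mul_zero]
  rw [h2, Finset.sum_range_add, Finset.sum_range_succ, h3, zero_add, ← hM, mul_add, Finset.mul_sum, Finset.mul_sum]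
  congr 1
  apply Finset.sum_congr rfl
  intro k _
  rw [pow_add, pow_add, pow_one]
  ring

/-- the point of the cone -/
noncomputable def xi {V : Type} [DecidableEq V] (P : V → ℂ) (i : V) (l : V) :
    MvPowerSeries (Option {j : V // j ≠ i}) ℂ :=
  if h : l = i then C (P i) else X (some ⟨l, h⟩) + C (P l)

theorem const_xi {V : Type} [DecidableEq V] (P : V → ℂ) (i l : V) : constantCoeff (xi P i l) = P l := by
  unfold xi
  split_ifs with h
  · rw [constantCoeff_C, h]
  · rw [map_add, constantCoeff_X, constantCoeff_C, zero_add]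

theorem const_aeval {σ τ : Type} (a : σ → MvPowerSeries τ ℂ) (F : MvPolynomial σ ℂ) :
    constantCoeff (MvPolynomial.aeval a F) = MvPolynomial.eval (fun l => constantCoeff (a l)) F := by
  induction F using MvPolynomial.induction_on with
  | C c =>
    rw [MvPolynomial.aeval_C, MvPolynomial.eval_C]
    exact constantCoeff_C _
  | add p q hp hq => rw [map_add, map_add, map_add, hp, hq]
  | mul_X p l hp => rw [map_mul, map_mul, map_mul, hp, MvPolynomial.aeval_X, MvPolynomial.eval_X]

/-- **The chart.** -/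
theorem chart {V : Type} [Fintype V] [DecidableEq V] (G : MvPolynomial V ℂ) (d : ℕ)
    (hG : ∀ j < d, MvPolynomial.homogeneousComponent j G = 0) (P : V → ℂ) (i : V) (hP : P i ≠ 0)
    (h1 : MvPolynomial.eval P (MvPolynomial.homogeneousComponent (d + 1) G) ≠ 0) :
    ∃ (Ψ : Option {j : V // j ≠ i} → MvPowerSeries (Option {j : V // j ≠ i}) ℂ)
      (J U : MvPowerSeries (Option {j : V // j ≠ i}) ℂ), IsUnit J ∧ IsUnit U ∧ (∀ o, constantCoeff (Ψ o) = 0) ∧
      (Matrix.of fun l m => pderiv ℂ m (Ψ l)).det = X none ^ Fintype.card {j : V // j ≠ i} * J ∧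
      MvPolynomial.aeval Ψ (MvPolynomial.rename (Equiv.optionSubtypeNe i).symm G) =
        U * (X none ^ d * (MvPolynomial.aeval (xi P i) (MvPolynomial.homogeneousComponent d G) + X none ^ 1)) := by
  classical
  obtain ⟨M, hM⟩ : ∃ M, M = G.totalDegree + 1 := ⟨_, rfl⟩
  obtain ⟨u, hu⟩ : ∃ u : MvPowerSeries (Option {j : V // j ≠ i}) ℂ, u = ∑ k ∈ Finset.range M, X none ^ k *
    MvPolynomial.aeval (xi P i) (MvPolynomial.homogeneousComponent (d + 1 + k) G) := ⟨_, rfl⟩
  have hu0 : constantCoeff u ≠ 0 := by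
    rw [hu, hM, Finset.sum_range_succ', map_add, map_sum]
    have : ∑ k ∈ Finset.range G.totalDegree, constantCoeff (X none ^ (k + 1) *
        MvPolynomial.aeval (xi P i) (MvPolynomial.homogeneousComponent (d + 1 + (k + 1)) G) :
        MvPowerSeries (Option {j : V // j ≠ i}) ℂ) = 0 := by
      apply Finset.sum_eq_zero
      intro k _
      rw [map_mul, map_pow, constantCoeff_X, zero_pow (by omega), zero_mul]
    rw [this, zero_add, pow_zero, one_mul, add_zero, const_aeval]
    have e : (fun l => constantCoeff (xi P i l)) = P := funext fun l => const_xi P i l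
    rw [e]
    exact h1
  obtain ⟨v, hv0, hv⟩ := inv_unit u hu0
  change v * subst (AA v) u = 1 at hv
  obtain ⟨Z, hZ⟩ : ∃ Z : MvPowerSeries (Option {j : V // j ≠ i}) ℂ, Z = X none * v := ⟨_, rfl⟩
  obtain ⟨Ψ, hΨ⟩ : ∃ Ψ : Option {j : V // j ≠ i} → MvPowerSeries (Option {j : V // j ≠ i}) ℂ,
    Ψ = fun o => Z * xi P i (Equiv.optionSubtypeNe i o) := ⟨_, rfl⟩
  have hxi : ∀ l : V, subst (AA v) (xi P i l) = xi P i l := by
    intro l
    rw [← coe_substAlgHom (R := ℂ) (AA_has v)]
    have hC : ∀ c : ℂ, substAlgHom (R := ℂ) (AA_has v) (C c) = C c := fun c => AlgHom.commutes _ c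
    unfold xi
    split_ifs with h
    · exact hC _
    · rw [map_add, hC, substAlgHom_X]
      rfl
  have hsu : subst (AA v) u = ∑ k ∈ Finset.range M, Z ^ k *
      MvPolynomial.aeval (xi P i) (MvPolynomial.homogeneousComponent (d + 1 + k) G) := by
    rw [hu, ← coe_substAlgHom (R := ℂ) (AA_has v), map_sum]
    apply Finset.sum_congr rfl
    intro k _
    rw [map_mul, map_pow, substAlgHom_X]
    have e1 : AA v none = Z := by rw [hZ]; rfl
    rw [e1]
    congr 1
    have e2 : ∀ F : MvPolynomial V ℂ, substAlgHom (R := ℂ) (AA_has v) (MvPolynomial.aeval (xi P i) F) =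
        MvPolynomial.aeval (fun l => substAlgHom (R := ℂ) (AA_has v) (xi P i l)) F := by
      intro F
      exact MvPolynomial.comp_aeval_apply (xi P i) (substAlgHom (R := ℂ) (AA_has v)) F
    rw [e2]
    congr 2
    funext l
    have := hxi l
    rw [← coe_substAlgHom (R := ℂ) (AA_has v)] at this
    exact this
  obtain ⟨J, hJ, hdet⟩ := det_chart v hv0 (fun o => P (Equiv.optionSubtypeNe i o)) (by simpa using hP) Ψ
    (by
      rw [hΨ, hZ]
      simp [xi]) (by
      intro j
      rw [hΨ, hZ]
      simp only [Equiv.optionSubtypeNe_some]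
      unfold xi
      rw [dif_neg j.2]
      ring)
  refine ⟨Ψ, J, v ^ d, hJ, ?_, ?_, hdet, ?_⟩
  · apply IsUnit.pow
    rw [MvPowerSeries.isUnit_iff_constantCoeff]
    exact isUnit_iff_ne_zero.2 hv0
  · intro o
    rw [hΨ, hZ]
    simp
  · rw [MvPolynomial.aeval_rename]
    have e1 : Ψ ∘ (Equiv.optionSubtypeNe i).symm = fun l => Z * xi P i l := by
      funext l
      rw [hΨ]
      simp only [Function.comp_apply, Equiv.apply_symm_apply]
    rw [e1, expand G d hG Z (xi P i), ← hM, ← hsu]
    have e2 : Z * subst (AA v) u = X none := by rw [hZ, mul_assoc, hv, mul_one]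
    rw [e2, hZ, mul_pow, pow_one]
    ring

end Pool.Agent.J4H94.YP
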