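import Mathlib
import Pool.Agent.J4H94.YP.Cone

set_option autoImplicit false

/-! Project YP, part of (G): the germ of the cone at a point. -/

namespace Pool.Agent.J4H94.YP

open MvPolynomial

variable {V : Type} [DecidableEq V]

/-- the argument of `deh` -/
noncomputable def ad (P : V → ℂ) (i : V) (j : V) : MvPolynomial {j : V // j ≠ i} ℂ :=
  if h : j = i then C (P i) else X ⟨j, h⟩ + C (P j)

theorem ren_ad (P : V → ℂ) (i : V) (F : MvPolynomial V ℂ) :
    ((rename some (aeval (ad P i) F) : MvPolynomial (Option {j : V // j ≠ i}) ℂ) :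
      MvPowerSeries (Option {j : V // j ≠ i}) ℂ) = aeval (xi P i) F := by
  induction F using MvPolynomial.induction_on with
  | C c =>
    rw [aeval_C, aeval_C]
    have : (algebraMap ℂ (MvPolynomial {j : V // j ≠ i} ℂ)) c = C c := rfl
    rw [this, rename_C, coe_C]
    rfl
  | add p q hp hq => rw [map_add, map_add, map_add, coe_add, hp, hq]
  | mul_X p l hp =>
    rw [map_mul, map_mul, map_mul, coe_mul, hp, aeval_X, aeval_X]
    congr 1
    unfold ad xi
    split_ifs with h
    · rw [rename_C, coe_C]
    · rw [map_add, rename_X, rename_C, coe_add, coe_X, coe_C]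

theorem pd_ad (P : V → ℂ) (i : V) (j : {j : V // j ≠ i}) (F : MvPolynomial V ℂ) :
    pderiv j (aeval (ad P i) F) = aeval (ad P i) (pderiv j.1 F) := by
  induction F using MvPolynomial.induction_on with
  | C c =>
    rw [aeval_C, pderiv_C, map_zero]
    exact pderiv_C
  | add p q hp hq => rw [map_add, map_add, map_add, map_add, hp, hq]
  | mul_X p l hp =>
    rw [map_mul, Derivation.leibniz, Derivation.leibniz, map_add, hp]
    simp only [smul_eq_mul]
    rw [map_mul, map_mul, aeval_X]
    congr 1
    congr 1
    by_cases hl : l = j.1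
    · rw [hl, pderiv_X_self, map_one]
      unfold ad
      rw [dif_neg j.2, map_add, pderiv_C, add_zero]
      exact pderiv_X_self _
    · rw [pderiv_X_of_ne hl, map_zero]
      unfold ad
      split_ifs with h
      · exact pderiv_C
      · rw [map_add, pderiv_C, add_zero]
        exact pderiv_X_of_ne (fun h' => hl (congrArg Subtype.val h'))

theorem cc_ad (P : V → ℂ) (i : V) (F : MvPolynomial V ℂ) :
    constantCoeff (aeval (ad P i) F) = eval P F := by
  induction F using MvPolynomial.induction_on with
  | C c =>
    rw [aeval_C, eval_C]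
    exact constantCoeff_C _ _
  | add p q hp hq => rw [map_add, map_add, map_add, hp, hq]
  | mul_X p l hp =>
    rw [map_mul, map_mul, map_mul, hp, aeval_X, eval_X]
    congr 1
    unfold ad
    split_ifs with h
    · rw [constantCoeff_C, h]
    · rw [map_add, constantCoeff_X, constantCoeff_C, zero_add]

theorem euler [Fintype V] {F : MvPolynomial V ℂ} {d : ℕ} (hF : F.IsHomogeneous d) (hd : 1 ≤ d) (P : V → ℂ)
    (h : ∀ l, eval P (pderiv l F) = 0) : eval P F = 0 := by
  have h1 := hF.sum_X_mul_pderiv
  have h2 := congrArg (eval P) h1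
  rw [map_sum] at h2
  have h3 : ∑ l, eval P (X l * pderiv l F) = 0 := by
    apply Finset.sum_eq_zero
    intro l _
    rw [map_mul, h l, mul_zero]
  rw [h3] at h2
  have hd0 : (d : ℂ) ≠ 0 := by exact_mod_cast (by omega : d ≠ 0)
  rw [map_nsmul, nsmul_eq_mul] at h2
  rcases mul_eq_zero.1 h2.symm with h4 | h4
  · exact absurd h4 hd0
  · exact h4

/-- the germ of the cone at a singular point has no terms of degree at most one -/
theorem sing_ad [Fintype V] {F : MvPolynomial V ℂ} {d : ℕ} (hF : F.IsHomogeneous d) (hd : 1 ≤ d) (P : V → ℂ) (i : V)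
    (h : ∀ l, eval P (pderiv l F) = 0) (x : {j : V // j ≠ i} →₀ ℕ) (hx : x.degree ≤ 1) :
    coeff x (aeval (ad P i) F) = 0 := by
  rcases Nat.eq_zero_or_pos x.degree with h0 | h0
  · rw [Finsupp.degree_eq_zero_iff] at h0
    subst h0
    have := cc_ad P i F
    rw [euler hF hd P h] at this
    exact this
  · have h1 : x.degree = 1 := by omega
    obtain ⟨j, hj⟩ : ∃ j, x = Finsupp.single j 1 := by
      have hne : x ≠ 0 := by rintro rfl; simp at h1
      obtain ⟨j, hj⟩ : ∃ j, x j ≠ 0 := by
        by_contra hcon
        push Not at hcon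
        exact hne (Finsupp.ext hcon)
      refine ⟨j, ?_⟩
      have hle : Finsupp.single j 1 ≤ x := by
        rw [Finsupp.single_le_iff]
        omega
      obtain ⟨y, hy⟩ := exists_add_of_le hle
      rw [hy, map_add, Finsupp.degree_single] at h1
      have hy0 : y.degree = 0 := by omega
      rw [Finsupp.degree_eq_zero_iff] at hy0
      rw [hy, hy0, add_zero]
    have h2 := pd_ad P i j F
    have h3 := cc_ad P i (pderiv j.1 F)
    rw [← h2, h j.1] at h3
    have h5 := coeff_pderiv (i := j) (aeval (ad P i) F) 0
    have h6 : coeff 0 (pderiv j (aeval (ad P i) F)) = 0 := h3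
    rw [h6, zero_add] at h5
    rw [hj]
    simpa using h5.symm

end Pool.Agent.J4H94.YP
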