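import Pool.Agent.J4H50.YP.Stm
import Pool.Agent.J4H50.YO.Main
import Pool.Agent.J4H94.YP.Deh

set_option autoImplicit false

/-! Project YP, (G): the cone, for de Rham functionals. -/

namespace Pool.Agent.J4H94.YP

open MvPolynomial
open Pool.Agent.J4H50.YO (NV Sing S_CN S_RN)
open Pool.Agent.J4H50.YP (deh S_G)

/-- (G) -/
theorem t_G : S_G := by
  intro V _ _ G d hd hG P i hP hsing h1 s S hS hs hs2 hNV
  obtain ⟨Ψ, J, U, hJ, hU, hΨ0, hdet, hsub⟩ := chart G d hG P i hP h1
  have hcard : Fintype.card {j : V // j ≠ i} + 1 = Fintype.card V := by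
    rw [← Fintype.card_option]
    exact Fintype.card_congr (Equiv.optionSubtypeNe i)
  have hdeh : deh P i (homogeneousComponent d G) = aeval (ad P i) (homogeneousComponent d G) := rfl
  have hNV2 : NV ((rename (Equiv.optionSubtypeNe i).symm G : MvPolynomial (Option {j : V // j ≠ i}) ℂ) :
      MvPowerSeries (Option {j : V // j ≠ i}) ℂ) s := by
    refine Pool.Agent.J4H50.YO.p_CN _ Ψ J U
      ((deh P i (homogeneousComponent d G) : MvPolynomial {j : V // j ≠ i} ℂ) : MvPowerSeries {j : V // j ≠ i} ℂ)
      S s d 1 (by omega) le_rfl ?_ hs ?_ hΨ0 hJ hU hdet ?_ ?_ hNV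
    · rw [hS, ← hcard]
      push_cast
      ring
    · intro k hk
      have := hs2 k hk
      rw [← hcard] at this
      simpa using this
    · have e1 : MvPowerSeries.rename some
          ((deh P i (homogeneousComponent d G) : MvPolynomial {j : V // j ≠ i} ℂ) : MvPowerSeries {j : V // j ≠ i} ℂ) =
          aeval (xi P i) (homogeneousComponent d G) := by
        rw [MvPowerSeries.rename_coe, hdeh]
        exact ren_ad P i _
      rw [e1, MvPowerSeries.subst_coe]
      exact hsub
    · intro x hx
      rw [coeff_coe, hdeh]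
      exact sing_ad (homogeneousComponent_isHomogeneous d G) (by omega) P i hsing x hx
  have h3 := (Pool.Agent.J4H19.YO.t_RN (Equiv.optionSubtypeNe i) _ s).1 hNV2
  have e2 : MvPowerSeries.rename (Equiv.optionSubtypeNe i)
      ((rename (Equiv.optionSubtypeNe i).symm G : MvPolynomial (Option {j : V // j ≠ i}) ℂ) :
      MvPowerSeries (Option {j : V // j ≠ i}) ℂ) = (G : MvPowerSeries V ℂ) := by
    rw [MvPowerSeries.rename_coe, rename_rename]
    have : (⇑(Equiv.optionSubtypeNe i) ∘ ⇑(Equiv.optionSubtypeNe i).symm) = id :=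
      funext fun t => (Equiv.optionSubtypeNe i).apply_symm_apply t
    rw [this, rename_id]
    rfl
  rw [e2] at h3
  exact h3

end Pool.Agent.J4H94.YP
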